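import Pool.Agent.Lib_helper12.HE.Defs

/-! Project HE (MP_b08f5f_an), block GL, first part: from windows to time averages. -/

set_option autoImplicit false

namespace Pool.Agent.Lib_helper12.HE

open MeasureTheory Filter Topology Set
open scoped ComplexConjugate ENNReal
open Pool.Agent.Lib_helper25.PV (Conf vel Motion centre inertia NC VFlow)

noncomputable section

/-- the integral over `n` windows -/
theorem GLW_sum {h : ℝ → ℝ} (hc : Continuous h) (p : ℝ) (n : ℕ) :
    ∑ k ∈ Finset.range n, ∫ t in (0 : ℝ)..p, h (k * p + t) = ∫ t in (0 : ℝ)..n * p, h t := by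
  induction n with
  | zero => simp
  | succ n ih =>
    have h1 : ∫ t in (0 : ℝ)..p, h (n * p + t) = ∫ t in (n * p : ℝ)..((n + 1 : ℕ) : ℝ) * p, h t := by
      rw [intervalIntegral.integral_comp_add_left (fun t => h t) (n * p : ℝ)]
      congr 1
      · ring
      · push_cast
        ring
    rw [Finset.sum_range_succ, ih, h1]
    exact intervalIntegral.integral_add_adjacent_intervals (hc.intervalIntegrable _ _)
      (hc.intervalIntegrable _ _)

/-- the average over one window is at most `K` -/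
theorem GLW_win {h : ℝ → ℝ} {K p : ℝ} (hK : ∀ t, |h t| ≤ K) (hp : 0 < p) (s : ℝ) :
    |p⁻¹ * ∫ t in (0 : ℝ)..p, h (s + t)| ≤ K := by
  have h1 : ‖∫ t in (0 : ℝ)..p, h (s + t)‖ ≤ K * |p - 0| :=
    intervalIntegral.norm_integral_le_of_norm_le_const fun t _ => by
      rw [Real.norm_eq_abs]
      exact hK _
  rw [Real.norm_eq_abs, sub_zero, abs_of_pos hp] at h1
  rw [abs_mul, abs_of_pos (inv_pos.2 hp), inv_mul_le_iff₀ hp]
  linarith

/-- a bounded function whose averages over the windows `[k p, (k+1) p]` are small except for a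
small fraction of `k` -/
theorem GL_windows {h : ℝ → ℝ} (hc : Continuous h) {K p a δ : ℝ} (hK : ∀ t, |h t| ≤ K)
    (hp : 0 < p) (ha : 0 ≤ a) {bad : ℕ → Prop} [DecidablePred bad]
    (hgood : ∀ k, ¬ bad k → |p⁻¹ * ∫ t in (0 : ℝ)..p, h (k * p + t)| ≤ a)
    (hbad : ∃ l ≤ δ, Tendsto (fun n : ℕ =>
      (∑ k ∈ Finset.range n, (if bad k then (1 : ℝ) else 0)) / n) atTop (𝓝 l))
    {L : ℝ} (hL : Tendsto (fun T : ℝ => T⁻¹ * ∫ t in (0 : ℝ)..T, h t) atTop (𝓝 L)) :
    |L| ≤ a + K * δ := by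
  obtain ⟨l, hl, hlim⟩ := hbad
  have hK0 : 0 ≤ K := (abs_nonneg _).trans (hK 0)
  have hT : Tendsto (fun n : ℕ => (n : ℝ) * p) atTop atTop :=
    tendsto_natCast_atTop_atTop.atTop_mul_const hp
  have h1 : Tendsto (fun n : ℕ => |((n : ℝ) * p)⁻¹ * ∫ t in (0 : ℝ)..(n : ℝ) * p, h t|) atTop
      (𝓝 |L|) := (hL.comp hT).abs
  have h2 : Tendsto (fun n : ℕ => a + K * ((∑ k ∈ Finset.range n,
      (if bad k then (1 : ℝ) else 0)) / n)) atTop (𝓝 (a + K * l)) :=
    (hlim.const_mul K).const_add a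
  have h3 : ∀ᶠ n : ℕ in atTop, |((n : ℝ) * p)⁻¹ * ∫ t in (0 : ℝ)..(n : ℝ) * p, h t| ≤
      a + K * ((∑ k ∈ Finset.range n, (if bad k then (1 : ℝ) else 0)) / n) := by
    filter_upwards [eventually_gt_atTop 0] with n hn
    have hn' : (0 : ℝ) < n := Nat.cast_pos.2 hn
    have e1 : ((n : ℝ) * p)⁻¹ * ∫ t in (0 : ℝ)..(n : ℝ) * p, h t =
        (n : ℝ)⁻¹ * ∑ k ∈ Finset.range n, p⁻¹ * ∫ t in (0 : ℝ)..p, h (k * p + t) := by
      rw [← GLW_sum hc p n, ← Finset.mul_sum, mul_inv, mul_assoc]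
    have e2 : |∑ k ∈ Finset.range n, p⁻¹ * ∫ t in (0 : ℝ)..p, h (k * p + t)| ≤
        ∑ k ∈ Finset.range n, (a + K * (if bad k then (1 : ℝ) else 0)) := by
      refine (Finset.abs_sum_le_sum_abs _ _).trans (Finset.sum_le_sum fun k _ => ?_)
      by_cases hk : bad k
      · rw [if_pos hk, mul_one]
        exact (GLW_win hK hp _).trans (le_add_of_nonneg_left ha)
      · rw [if_neg hk, mul_zero, add_zero]
        exact hgood k hk
    rw [e1, abs_mul, abs_of_pos (inv_pos.2 hn'), inv_mul_le_iff₀ hn']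
    refine e2.trans (le_of_eq ?_)
    rw [Finset.sum_add_distrib, Finset.sum_const, Finset.card_range, nsmul_eq_mul,
      ← Finset.mul_sum]
    field_simp
  have h4 := le_of_tendsto_of_tendsto h1 h2 h3
  exact h4.trans (add_le_add_right (mul_le_mul_of_nonneg_left hl hK0) a)

end

end Pool.Agent.Lib_helper12.HE
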